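import Pool.Agent.Q8.BV.Profile

set_option autoImplicit false

/-!
The counterexample.
-/

namespace Q8.BV

open MeasureTheory Set Filter
open scoped ENNReal Topology ContDiff

/-- the function `u = ∑ w_k` -/
noncomputable def u (x : ℝ) : ℝ := ∑' k, w k x

/-- partial sums -/
noncomputable def un (n : ℕ) (x : ℝ) : ℝ := ∑ k ∈ Finset.range n, w k x

theorem sc_tendsto : Tendsto sc atTop (𝓝 0) := by
  have h1 : Tendsto (fun k : ℕ => (16 : ℝ) ^ k) atTop atTop :=
    tendsto_pow_atTop_atTop_of_one_lt (by norm_num)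
  exact Real.tendsto_exp_neg_atTop_nhds_zero.comp h1

theorem w_eventually {x : ℝ} (hx : x ≠ 0) : ∃ K, ∀ k, K ≤ k → w k x = 0 := by
  obtain ⟨K, hK⟩ := eventually_atTop.1 (sc_tendsto.eventually (gt_mem_nhds (abs_pos.2 hx)))
  exact ⟨K, fun k hk => w_zero (hK k hk).le⟩

theorem summable_w {x : ℝ} (hx : x ≠ 0) : Summable (fun k => w k x) := by
  obtain ⟨K, hK⟩ := w_eventually hx
  apply summable_of_ne_finset_zero (s := Finset.range K)
  intro k hk
  rw [Finset.mem_range, not_lt] at hk
  exact hK k hk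

theorem un_le {x : ℝ} (hx : x ≠ 0) (n : ℕ) : un n x ≤ u x :=
  (summable_w hx).sum_le_tsum _ (fun k _ => w_nonneg k x)

theorem un_nonneg (n : ℕ) (x : ℝ) : 0 ≤ un n x := Finset.sum_nonneg fun k _ => w_nonneg k x

theorem un_tendsto {x : ℝ} (hx : x ≠ 0) : Tendsto (fun n => un n x) atTop (𝓝 (u x)) :=
  (summable_w hx).hasSum.tendsto_sum_nat

theorem un_continuous (n : ℕ) : Continuous (un n) :=
  continuous_finset_sum _ fun k _ => (w_smooth k).continuous

theorem u_measurable : Measurable u := by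
  have h : ∀ n : ℕ, Measurable (fun x : ℝ => if x = 0 then u 0 else un n x) := fun n =>
    Measurable.ite (measurableSet_singleton 0) measurable_const (un_continuous n).measurable
  refine measurable_of_tendsto_metrizable h ?_
  rw [tendsto_pi_nhds]
  intro x
  by_cases hx : x = 0
  · simp [hx]
  · simp only [hx, if_false]
    exact un_tendsto hx

theorem ae_ne_zero : ∀ᵐ x : ℝ, x ≠ 0 := by
  have : (volume : Measure ℝ) {0} = 0 := by simp
  rw [ae_iff]
  simpa using this

theorem sc_le (k : ℕ) : sc k ≤ 1 / 16 ^ k := by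
  rw [sc, Real.exp_neg, one_div]
  apply inv_anti₀ (by positivity)
  have := Real.add_one_le_exp ((16 : ℝ) ^ k)
  linarith

theorem N2_u : N2 u ≠ ⊤ := by
  have h : ∀ n, N2 (un n) ≤ ENNReal.ofReal 8 := by
    intro n
    refine (N2_sum_le n fun k => (w_smooth k).continuous.measurable).trans ?_
    calc ∑ k ∈ Finset.range n, 2 ^ (k + 1) * N2 (w k)
        ≤ ∑ k ∈ Finset.range n, ENNReal.ofReal (8 * (1 / 2) ^ (k + 1)) := by
          apply Finset.sum_le_sum
          intro k _
          calc (2 : ℝ≥0∞) ^ (k + 1) * N2 (w k)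
              ≤ 2 ^ (k + 1) * ENNReal.ofReal (4 ^ k * (2 * sc k)) := by
                gcongr; exact N2_w k
            _ = ENNReal.ofReal (2 ^ (k + 1) * (4 ^ k * (2 * sc k))) := by
                rw [ENNReal.ofReal_mul (p := 2 ^ (k + 1)) (by positivity),
                  ENNReal.ofReal_pow (by norm_num)]
                simp
            _ ≤ ENNReal.ofReal (8 * (1 / 2) ^ (k + 1)) := by
                apply ENNReal.ofReal_le_ofReal
                calc (2 : ℝ) ^ (k + 1) * (4 ^ k * (2 * sc k))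
                    ≤ 2 ^ (k + 1) * (4 ^ k * (2 * (1 / 16 ^ k))) := by
                      gcongr; exact sc_le k
                  _ = 8 * (1 / 2) ^ (k + 1) := by
                      rw [show (16 : ℝ) ^ k = 2 ^ k * 2 ^ k * 4 ^ k by
                        rw [← mul_pow, ← mul_pow]; norm_num]
                      rw [one_div_pow]
                      field_simp
                      ring
      _ = ENNReal.ofReal (∑ k ∈ Finset.range n, 8 * (1 / 2) ^ (k + 1)) := by
          rw [ENNReal.ofReal_sum_of_nonneg (fun k _ => by positivity)]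
      _ ≤ ENNReal.ofReal 8 := by
          apply ENNReal.ofReal_le_ofReal
          rw [← Finset.mul_sum]
          have := weights n
          linarith
  have := N2_le_of_tendsto (v := u) (vn := un) (fun n => (un_continuous n).measurable)
    (by filter_upwards [ae_ne_zero] with x hx using un_tendsto hx) h
  exact ne_top_of_le_ne_top ENNReal.ofReal_ne_top this

theorem u_memLp : MemLp u 2 volume := by
  rw [memLp_two_iff_integrable_sq u_measurable.aestronglyMeasurable]
  refine ⟨(u_measurable.pow_const 2).aestronglyMeasurable, ?_⟩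
  have h := N2_u
  rw [N2] at h
  rw [HasFiniteIntegral, lt_top_iff_ne_top]
  simpa only [enorm_pow] using h

theorem moll_un {η : ℝ → ℝ} (hη : Integrable η) (n : ℕ) (ε : ℝ) :
    moll η (un n) ε = fun x => ∑ k ∈ Finset.range n, moll η (w k) ε x := by
  funext x
  simp only [moll, un, Finset.mul_sum]
  rw [integral_finset_sum]
  intro k _
  exact integrable_mul (w_smooth k) (w_compact k) hη ε x

theorem gag_un {η g : ℝ → ℝ} (hη : Integrable η) (hg : Integrable g) (hw : WeakDeriv η g) :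
    ∃ C : ℝ≥0∞, C ≠ ⊤ ∧ ∀ n : ℕ, ∀ ε : ℝ, 0 < ε → ε < 1 →
      gag (moll η (un n) ε) ≤ C * ENNReal.ofReal (4 * (1 + Real.log (1 / ε))) := by
  obtain ⟨C, hC, h⟩ := gag_w hη hg hw
  refine ⟨C, hC, fun n ε hε hε1 => ?_⟩
  have hℓ : 0 ≤ 1 + Real.log (1 / ε) := by
    have : 0 ≤ Real.log (1 / ε) := Real.log_nonneg (by rw [le_div_iff₀ hε]; linarith)
    linarith
  rw [moll_un hη]
  refine (gag_sum_le n fun k => moll_measurable hη.aestronglyMeasurable
    (w_smooth k).continuous.measurable ε).trans ?_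
  calc ∑ k ∈ Finset.range n, 2 ^ (k + 1) * gag (moll η (w k) ε)
      ≤ ∑ k ∈ Finset.range n, C * ENNReal.ofReal (4 * (1 + Real.log (1 / ε)) * (1 / 2) ^ (k + 1)) := by
        apply Finset.sum_le_sum
        intro k _
        calc (2 : ℝ≥0∞) ^ (k + 1) * gag (moll η (w k) ε)
            ≤ 2 ^ (k + 1) * (C * ENNReal.ofReal (4 ^ k * ((1 + Real.log (1 / ε)) / 16 ^ k))) := by
              gcongr; exact h k ε hε hε1
          _ = C * ENNReal.ofReal (2 ^ (k + 1) * (4 ^ k * ((1 + Real.log (1 / ε)) / 16 ^ k))) := by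
              rw [ENNReal.ofReal_mul (p := 2 ^ (k + 1)) (by positivity),
                ENNReal.ofReal_pow (by norm_num)]
              simp only [ENNReal.ofReal_ofNat]
              ring
          _ = C * ENNReal.ofReal (4 * (1 + Real.log (1 / ε)) * (1 / 2) ^ (k + 1)) := by
              congr 2
              rw [show (16 : ℝ) ^ k = 2 ^ k * 2 ^ k * 4 ^ k by
                rw [← mul_pow, ← mul_pow]; norm_num, one_div_pow]
              field_simp
              ring
    _ = C * ENNReal.ofReal (∑ k ∈ Finset.range n,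
          4 * (1 + Real.log (1 / ε)) * (1 / 2) ^ (k + 1)) := by
        rw [ENNReal.ofReal_sum_of_nonneg (fun k _ => by positivity), Finset.mul_sum]
    _ ≤ C * ENNReal.ofReal (4 * (1 + Real.log (1 / ε))) := by
        gcongr
        rw [← Finset.mul_sum]
        have := weights n
        nlinarith

theorem moll_tendsto {η : ℝ → ℝ} (hη : Integrable η) {ε : ℝ} (hε : ε ≠ 0) :
    ∀ᵐ x, Tendsto (fun n => moll η (un n) ε x) atTop (𝓝 (moll η u ε x)) := by
  have h1 : ∫⁻ x, (∫⁻ z, ‖η z‖ₑ * ‖u (x - ε * z)‖ₑ) ^ 2 ≠ ⊤ := by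
    refine ne_top_of_le_ne_top ?_ (young hη.aestronglyMeasurable.enorm u_measurable.enorm ε)
    exact ENNReal.mul_ne_top (ENNReal.pow_ne_top hη.2.ne) N2_u
  have hm : AEMeasurable (fun x => (∫⁻ z, ‖η z‖ₑ * ‖u (x - ε * z)‖ₑ) ^ 2) := by
    apply AEMeasurable.pow_const
    have hm' : AEMeasurable (fun p : ℝ × ℝ => ‖η p.2‖ₑ * ‖u (p.1 - ε * p.2)‖ₑ)
        (volume.prod volume) := by
      have m1 : AEMeasurable (fun p : ℝ × ℝ => ‖η p.2‖ₑ) (volume.prod volume) :=
        (hη.aestronglyMeasurable.enorm).comp_quasiMeasurePreserving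
          Measure.quasiMeasurePreserving_snd
      have m2 : AEMeasurable (fun p : ℝ × ℝ => ‖u (p.1 - ε * p.2)‖ₑ) (volume.prod volume) :=
        ((u_measurable.comp (by fun_prop)).enorm).aemeasurable
      exact m1.mul m2
    exact hm'.lintegral_prod_right'
  filter_upwards [ae_lt_top' hm h1] with x hx
  have hx' : ∫⁻ z, ‖η z‖ₑ * ‖u (x - ε * z)‖ₑ < ⊤ := by
    by_contra hcon
    rw [not_lt, top_le_iff] at hcon
    rw [hcon] at hx
    simp at hx
  have hae : ∀ᵐ z : ℝ, x - ε * z ≠ 0 := by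
    have h0 : (volume : Measure ℝ) {x / ε} = 0 := by simp
    have h2 : ∀ᵐ z : ℝ, z ≠ x / ε := by
      rw [ae_iff]; simpa using h0
    filter_upwards [h2] with z hz h3
    apply hz
    rw [eq_div_iff hε]
    linarith
  have hum : ∀ f : ℝ → ℝ, Measurable f → AEStronglyMeasurable (fun z => η z * f (x - ε * z))
      volume := fun f hf =>
    hη.aestronglyMeasurable.mul ((hf.comp (by fun_prop)).aestronglyMeasurable)
  apply tendsto_integral_of_dominated_convergence (fun z => ‖η z * u (x - ε * z)‖)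
  · intro n
    exact hum _ (un_continuous n).measurable
  · refine ⟨(hum _ u_measurable).norm, ?_⟩
    rw [HasFiniteIntegral]
    simpa only [enorm_norm, enorm_mul] using hx'
  · intro n
    filter_upwards [hae] with z hz
    rw [norm_mul, norm_mul]
    gcongr
    rw [Real.norm_eq_abs, Real.norm_eq_abs, abs_of_nonneg (un_nonneg n _),
      abs_of_nonneg ((un_nonneg n _).trans (un_le hz n))]
    exact un_le hz n
  · filter_upwards [hae] with z hz
    exact (un_tendsto hz).const_mul _

/-- The Sobolev space `W^{1,1}(ℝ)`. -/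
def W11 (η : ℝ → ℝ) : Prop := Integrable η ∧ ∃ g : ℝ → ℝ, Integrable g ∧ WeakDeriv η g

theorem log_growth {η : ℝ → ℝ} (h : W11 η) :
    limsup (fun ε : ℝ => gag (moll η u ε) / ENNReal.ofReal |Real.log ε|) (𝓝[>] 0) < ⊤ := by
  obtain ⟨hη, g, hg, hw⟩ := h
  obtain ⟨C, hC, hb⟩ := gag_un hη hg hw
  refine lt_of_le_of_lt (b := C * 8) ?_ (ENNReal.mul_lt_top hC.lt_top (by simp))
  apply limsup_le_of_le (by isBoundedDefault)
  have hev : ∀ᶠ ε : ℝ in 𝓝[>] 0, ε ∈ Ioo (0 : ℝ) (Real.exp (-1)) :=
    Ioo_mem_nhdsGT (Real.exp_pos _)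
  filter_upwards [hev] with ε hε
  have hε1 : ε < 1 := hε.2.trans (by rw [Real.exp_lt_one_iff]; norm_num)
  have hlog : Real.log ε ≤ -1 := by
    have := Real.log_le_log hε.1 hε.2.le
    rwa [Real.log_exp] at this
  have habs : |Real.log ε| = Real.log (1 / ε) := by
    rw [abs_of_nonpos (by linarith), one_div, Real.log_inv]
  have hℓ : 1 ≤ Real.log (1 / ε) := by rw [← habs, abs_of_nonpos (by linarith)]; linarith
  have h1 := gag_le_of_tendsto (v := moll η u ε) (vn := fun n => moll η (un n) ε)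
    (fun n => moll_measurable hη.aestronglyMeasurable (un_continuous n).measurable ε)
    (moll_tendsto hη hε.1.ne') (fun n => hb n ε hε.1 hε1)
  rw [habs]
  have hpos : ENNReal.ofReal (Real.log (1 / ε)) ≠ 0 := by
    rw [ne_eq, ENNReal.ofReal_eq_zero, not_le]; linarith
  rw [ENNReal.div_le_iff hpos ENNReal.ofReal_ne_top]
  refine h1.trans ?_
  rw [mul_assoc]
  gcongr
  rw [show (8 : ℝ≥0∞) = ENNReal.ofReal 8 by simp, ← ENNReal.ofReal_mul (by norm_num)]
  apply ENNReal.ofReal_le_ofReal
  linarith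

/-- The square of the Besov seminorm of `B^{1/2}_{2,∞}(ℝ)`. -/
noncomputable def besov (f : ℝ → ℝ) : ℝ≥0∞ :=
  ⨆ (h : ℝ) (_ : h ≠ 0), ∫⁻ x, ENNReal.ofReal (|f (x + h) - f x| ^ 2 / |h|)

theorem sc_lt {j k : ℕ} (h : j < k) : 5 * sc k ≤ sc j := by
  have h1 : (16 : ℝ) ^ j * 16 ≤ 16 ^ k := by
    rw [← pow_succ]
    exact pow_le_pow_right₀ (by norm_num) h
  have h2 : (1 : ℝ) ≤ 16 ^ j := one_le_pow₀ (by norm_num)
  have h3 : Real.exp (-16 ^ j) = Real.exp (16 ^ k - 16 ^ j) * Real.exp (-16 ^ k) := by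
    rw [← Real.exp_add]; congr 1; ring
  rw [sc, sc, h3]
  gcongr
  have := Real.add_one_le_exp ((16 : ℝ) ^ k - 16 ^ j)
  linarith

theorem jump {k : ℕ} {x : ℝ} (h0 : 0 < x) (h1 : x < sc k / 2) :
    2 ^ k ≤ u x - u (x + 2 * sc k) := by
  have hs := sc_pos k
  have e1 : u (x + 2 * sc k) = ∑ j ∈ Finset.range k, (2 : ℝ) ^ j := by
    rw [u, tsum_eq_sum (s := Finset.range k)]
    · refine Finset.sum_congr rfl fun j hj => ?_
      have h2 := sc_lt (Finset.mem_range.1 hj)
      apply w_one
      rw [abs_of_pos (by linarith)]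
      linarith
    · intro j hj
      rw [Finset.mem_range, not_lt] at hj
      apply w_zero
      rw [abs_of_pos (by linarith)]
      have h2 : sc j ≤ sc k := by
        rw [sc, sc, Real.exp_le_exp]
        have : (16 : ℝ) ^ k ≤ 16 ^ j := pow_le_pow_right₀ (by norm_num) hj
        linarith
      linarith
  have e2 : ∑ j ∈ Finset.range (k + 1), (2 : ℝ) ^ j ≤ u x := by
    refine le_trans (le_of_eq ?_) (un_le h0.ne' (k + 1))
    rw [un]
    refine Finset.sum_congr rfl fun j hj => ?_
    symm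
    apply w_one
    rw [abs_of_pos h0]
    rcases Nat.lt_succ_iff_lt_or_eq.1 (Finset.mem_range.1 hj) with h2 | h2
    · have := sc_lt h2
      linarith
    · rw [h2]; exact h1.le
  rw [Finset.sum_range_succ] at e2
  rw [e1]
  linarith

theorem besov_u : besov u = ⊤ := by
  apply ENNReal.eq_top_of_forall_nnreal_le
  intro r
  obtain ⟨k, hk⟩ := pow_unbounded_of_one_lt (4 * (r : ℝ)) (show (1 : ℝ) < 4 by norm_num)
  have hs := sc_pos k
  have hne : 2 * sc k ≠ 0 := by positivity
  refine le_trans ?_ (le_iSup₂ (f := fun (h : ℝ) (_ : h ≠ 0) =>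
    ∫⁻ x, ENNReal.ofReal (|u (x + h) - u x| ^ 2 / |h|)) (2 * sc k) hne)
  calc (r : ℝ≥0∞) = ENNReal.ofReal r := (ENNReal.ofReal_coe_nnreal).symm
    _ ≤ ENNReal.ofReal (4 ^ k / (2 * sc k) * (sc k / 2)) := by
        apply ENNReal.ofReal_le_ofReal
        have : 4 ^ k / (2 * sc k) * (sc k / 2) = (4 : ℝ) ^ k / 4 := by
          field_simp; norm_num
        rw [this]
        linarith
    _ = ∫⁻ x in Ioo (0 : ℝ) (sc k / 2), ENNReal.ofReal (4 ^ k / (2 * sc k)) := by
        rw [setLIntegral_const, Real.volume_Ioo, sub_zero, ENNReal.ofReal_mul (by positivity)]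
    _ ≤ ∫⁻ x in Ioo (0 : ℝ) (sc k / 2),
          ENNReal.ofReal (|u (x + 2 * sc k) - u x| ^ 2 / |2 * sc k|) := by
        apply setLIntegral_mono' measurableSet_Ioo
        intro x hx
        apply ENNReal.ofReal_le_ofReal
        have h1 := jump hx.1 hx.2
        rw [abs_of_pos (show (0 : ℝ) < 2 * sc k by positivity), abs_sub_comm]
        gcongr
        rw [show (4 : ℝ) ^ k = (2 ^ k) ^ 2 by rw [← pow_mul, mul_comm k 2, pow_mul]; norm_num]
        exact pow_le_pow_left₀ (by positivity) (h1.trans (le_abs_self _)) 2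
    _ ≤ ∫⁻ x, ENNReal.ofReal (|u (x + 2 * sc k) - u x| ^ 2 / |2 * sc k|) :=
        setLIntegral_le_lintegral _ _

end Q8.BV
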