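import Pool.Agent.Q8.BV.Young

set_option autoImplicit false

/-!
The Gagliardo seminorm of order `1/2` in `L²(ℝ)`.
-/

namespace Q8.BV

open MeasureTheory Set
open scoped ENNReal Topology

/-- The square of the Gagliardo seminorm `[v]_{W^{1/2,2}(ℝ)}`. -/
noncomputable def gag (v : ℝ → ℝ) : ℝ≥0∞ :=
  ∫⁻ x, ∫⁻ y, ENNReal.ofReal (|v x - v y| ^ 2 / |x - y| ^ 2)

/-- the `L²` modulus of `v` -/
noncomputable def T (v : ℝ → ℝ) (δ : ℝ) : ℝ≥0∞ := N2 (fun x => v (x + δ) - v x)

theorem ofReal_quot (a b : ℝ) :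
    ENNReal.ofReal (|a| ^ 2 / |b| ^ 2) = ‖a‖ₑ ^ 2 * ENNReal.ofReal (1 / b ^ 2) := by
  rw [sq_abs, sq_abs, div_eq_mul_one_div, ENNReal.ofReal_mul (sq_nonneg _)]
  congr 1
  rw [Real.enorm_eq_ofReal_abs, ← ENNReal.ofReal_pow (abs_nonneg _), sq_abs]

theorem gag_eq {v : ℝ → ℝ} (hv : Measurable v) :
    gag v = ∫⁻ δ, T v δ * ENNReal.ofReal (1 / δ ^ 2) := by
  have h1 : gag v = ∫⁻ x, ∫⁻ δ, ‖v (x + δ) - v x‖ₑ ^ 2 * ENNReal.ofReal (1 / δ ^ 2) := by
    rw [gag]
    apply lintegral_congr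
    intro x
    rw [← lintegral_add_left_eq_self _ x]
    apply lintegral_congr
    intro δ
    rw [ofReal_quot]
    have e1 : x - (x + δ) = -δ := by ring
    rw [e1, neg_sq, ← enorm_neg, neg_sub]
  rw [h1, lintegral_lintegral_swap]
  · apply lintegral_congr
    intro δ
    rw [T, N2, lintegral_mul_const']
    exact ENNReal.ofReal_ne_top
  · apply Measurable.aemeasurable
    have m1 : Measurable (fun p : ℝ × ℝ => ‖v (p.1 + p.2) - v p.1‖ₑ ^ 2) :=
      (((hv.comp (by fun_prop)).sub (hv.comp measurable_fst)).enorm).pow_const 2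
    have m2 : Measurable (fun p : ℝ × ℝ => ENNReal.ofReal (1 / p.2 ^ 2)) :=
      ENNReal.measurable_ofReal.comp (by fun_prop)
    exact m1.mul m2

theorem lintegral_inv_sq {s : ℝ} (hs : 0 < s) :
    ∫⁻ δ in Ioi s, ENNReal.ofReal (1 / δ ^ 2) = ENNReal.ofReal (1 / s) := by
  have e : ∀ δ ∈ Ioi s, (1 / δ ^ 2 : ℝ) = δ ^ (-2 : ℝ) := by
    intro δ hδ
    have : 0 < δ := hs.trans hδ
    rw [Real.rpow_neg this.le, one_div]
    norm_cast
  have hint : IntegrableOn (fun δ : ℝ => (1 / δ ^ 2 : ℝ)) (Ioi s) := by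
    refine (integrableOn_Ioi_rpow_of_lt (a := -2) (by norm_num) hs).congr_fun ?_ measurableSet_Ioi
    intro δ hδ
    exact (e δ hδ).symm
  rw [← ofReal_integral_eq_lintegral_ofReal hint
    (Filter.Eventually.of_forall fun δ => by positivity)]
  congr 1
  rw [setIntegral_congr_fun measurableSet_Ioi e, integral_Ioi_rpow_of_lt (by norm_num) hs]
  rw [show (-2 : ℝ) + 1 = -1 by norm_num, Real.rpow_neg hs.le, Real.rpow_one]
  field_simp

theorem lintegral_inv_sq' {s : ℝ} (hs : 0 < s) :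
    ∫⁻ δ in Iio (-s), ENNReal.ofReal (1 / δ ^ 2) = ENNReal.ofReal (1 / s) := by
  rw [← lintegral_inv_sq hs, ← lintegral_indicator measurableSet_Iio,
    ← lintegral_indicator measurableSet_Ioi, ← lintegral_neg_eq_self]
  apply lintegral_congr
  intro δ
  by_cases h : s < δ
  · have h' : -δ < -s := by linarith
    rw [indicator_of_mem (show -δ ∈ Iio (-s) from h'), indicator_of_mem (show δ ∈ Ioi s from h),
      neg_sq]
  · have h' : ¬ -δ < -s := by intro h2; apply h; linarith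
    rw [indicator_of_notMem (show -δ ∉ Iio (-s) from h'),
      indicator_of_notMem (show δ ∉ Ioi s from h)]

/-- The basic estimate. -/
theorem gag_le {v : ℝ → ℝ} (hv : Measurable v) {a b : ℝ≥0∞} (h1 : ∀ δ, T v δ ≤ a)
    (h2 : ∀ δ, T v δ ≤ ENNReal.ofReal (δ ^ 2) * b) {s : ℝ} (hs : 0 < s) :
    gag v ≤ 2 * b * ENNReal.ofReal s + 2 * a * ENNReal.ofReal (1 / s) := by
  rw [gag_eq hv]
  have hsplit : (univ : Set ℝ) = Icc (-s) s ∪ (Ioi s ∪ Iio (-s)) := by
    ext x
    simp only [mem_univ, mem_union, mem_Icc, mem_Ioi, mem_Iio, true_iff]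
    by_cases h : s < x
    · exact Or.inr (Or.inl h)
    · by_cases h' : x < -s
      · exact Or.inr (Or.inr h')
      · exact Or.inl ⟨not_lt.1 h', not_lt.1 h⟩
  rw [← setLIntegral_univ, hsplit]
  refine (lintegral_union_le _ _ _).trans ?_
  have k1 : ∫⁻ δ in Icc (-s) s, T v δ * ENNReal.ofReal (1 / δ ^ 2) ≤ 2 * b * ENNReal.ofReal s := by
    calc ∫⁻ δ in Icc (-s) s, T v δ * ENNReal.ofReal (1 / δ ^ 2)
        ≤ ∫⁻ δ in Icc (-s) s, b := by
          apply lintegral_mono
          intro δ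
          calc T v δ * ENNReal.ofReal (1 / δ ^ 2)
              ≤ (ENNReal.ofReal (δ ^ 2) * b) * ENNReal.ofReal (1 / δ ^ 2) := by
                gcongr; exact h2 δ
            _ = b * ENNReal.ofReal (δ ^ 2 * (1 / δ ^ 2)) := by
                rw [ENNReal.ofReal_mul (sq_nonneg _)]; ring
            _ ≤ b * 1 := by
                gcongr
                rw [ENNReal.ofReal_le_one]
                rcases eq_or_ne δ 0 with h | h
                · rw [h]; norm_num
                · apply le_of_eq; field_simp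
            _ = b := mul_one b
      _ = 2 * b * ENNReal.ofReal s := by
          rw [setLIntegral_const, Real.volume_Icc, show s - -s = 2 * s by ring,
            ENNReal.ofReal_mul (by norm_num)]
          simp only [ENNReal.ofReal_ofNat]
          ring
  have k2 : ∀ S : Set ℝ, ∫⁻ δ in S, T v δ * ENNReal.ofReal (1 / δ ^ 2) ≤
      a * ∫⁻ δ in S, ENNReal.ofReal (1 / δ ^ 2) := by
    intro S
    calc ∫⁻ δ in S, T v δ * ENNReal.ofReal (1 / δ ^ 2)
        ≤ ∫⁻ δ in S, a * ENNReal.ofReal (1 / δ ^ 2) := by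
          apply lintegral_mono
          intro δ
          show T v δ * ENNReal.ofReal (1 / δ ^ 2) ≤ a * ENNReal.ofReal (1 / δ ^ 2)
          gcongr
          exact h1 δ
      _ = a * ∫⁻ δ in S, ENNReal.ofReal (1 / δ ^ 2) := by
          rw [lintegral_const_mul]
          exact ENNReal.measurable_ofReal.comp (by fun_prop)
  have k3 : ∫⁻ δ in Ioi s ∪ Iio (-s), T v δ * ENNReal.ofReal (1 / δ ^ 2) ≤
      2 * a * ENNReal.ofReal (1 / s) := by
    refine (lintegral_union_le _ _ _).trans ?_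
    have := add_le_add (k2 (Ioi s)) (k2 (Iio (-s)))
    rw [lintegral_inv_sq hs, lintegral_inv_sq' hs] at this
    refine this.trans (le_of_eq ?_)
    ring
  exact add_le_add k1 k3

end Q8.BV
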