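import Pool.Agent.Q8.BV.Gag

set_option autoImplicit false

/-!
Estimates of the modulus of `f * η_ε`.
-/

namespace Q8.BV

open MeasureTheory Set
open scoped ENNReal Topology ContDiff

/-- `g` is the weak derivative of `η`. -/
def WeakDeriv (η g : ℝ → ℝ) : Prop :=
  ∀ ψ : ℝ → ℝ, ContDiff ℝ ∞ ψ → HasCompactSupport ψ →
    ∫ z, η z * deriv ψ z = -∫ z, g z * ψ z

/-- `∫_x^{x + δ} f` -/
noncomputable def J (f : ℝ → ℝ) (δ x : ℝ) : ℝ := ∫ t in x..(x + δ), f t

theorem enorm_sq_mul (a b : ℝ) : ‖a * b‖ₑ ^ 2 = ENNReal.ofReal (a ^ 2) * ‖b‖ₑ ^ 2 := by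
  rw [enorm_mul, mul_pow]
  congr 1
  rw [Real.enorm_eq_ofReal_abs, ← ENNReal.ofReal_pow (abs_nonneg _), sq_abs]

theorem N2_const_mul (a : ℝ) (f : ℝ → ℝ) :
    N2 (fun x => a * f x) = ENNReal.ofReal (a ^ 2) * N2 f := by
  rw [N2, N2, ← lintegral_const_mul' _ _ ENNReal.ofReal_ne_top]
  simp only [enorm_sq_mul]

theorem enorm_sub_sq_le (a b : ℝ) : ‖a - b‖ₑ ^ 2 ≤ 2 * ‖a‖ₑ ^ 2 + 2 * ‖b‖ₑ ^ 2 := by
  have h1 : ∀ c : ℝ, ‖c‖ₑ ^ 2 = ENNReal.ofReal (c ^ 2) := by
    intro c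
    rw [Real.enorm_eq_ofReal_abs, ← ENNReal.ofReal_pow (abs_nonneg _), sq_abs]
  rw [h1, h1, h1]
  have h2 : (2 : ℝ≥0∞) = ENNReal.ofReal 2 := by simp
  rw [h2, ← ENNReal.ofReal_mul (by norm_num), ← ENNReal.ofReal_mul (by norm_num),
    ← ENNReal.ofReal_add (by positivity) (by positivity)]
  apply ENNReal.ofReal_le_ofReal
  nlinarith [sq_nonneg (a + b)]

theorem N2_sub_le {f g : ℝ → ℝ} (hf : Measurable f) :
    N2 (fun x => f x - g x) ≤ 2 * N2 f + 2 * N2 g := by
  rw [N2, N2, N2, ← lintegral_const_mul' 2 _ (by simp), ← lintegral_const_mul' 2 _ (by simp),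
    ← lintegral_add_left]
  · exact lintegral_mono fun x => enorm_sub_sq_le _ _
  · exact (hf.enorm.pow_const 2).const_mul 2

theorem N2_shift (f : ℝ → ℝ) (δ : ℝ) : N2 (fun x => f (x + δ)) = N2 f := by
  rw [N2, N2, lintegral_add_right_eq_self (fun x => ‖f x‖ₑ ^ 2)]

theorem J_eq_moll (f : ℝ → ℝ) (δ x : ℝ) :
    J f δ x = δ * moll ((Ioc (0 : ℝ) 1).indicator 1) f (-δ) x := by
  have h1 : moll ((Ioc (0 : ℝ) 1).indicator 1) f (-δ) x = ∫ s in (0 : ℝ)..1, f (δ * s + x) := by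
    rw [moll, intervalIntegral.integral_of_le zero_le_one, ← integral_indicator measurableSet_Ioc]
    congr 1
    funext z
    by_cases hz : z ∈ Ioc (0 : ℝ) 1
    · rw [indicator_of_mem hz, indicator_of_mem hz, Pi.one_apply, one_mul]
      congr 1; ring
    · rw [indicator_of_notMem hz, indicator_of_notMem hz, zero_mul]
  rw [h1, ← smul_eq_mul, intervalIntegral.smul_integral_comp_mul_add, J]
  congr 1 <;> ring

theorem N2_J {f : ℝ → ℝ} (hf : Measurable f) (δ : ℝ) :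
    N2 (J f δ) ≤ ENNReal.ofReal (δ ^ 2) * N2 f := by
  have e1 : J f δ = fun x => δ * moll ((Ioc (0 : ℝ) 1).indicator 1) f (-δ) x :=
    funext (J_eq_moll f δ)
  rw [e1, N2_const_mul]
  gcongr
  have hm : AEStronglyMeasurable ((Ioc (0 : ℝ) 1).indicator (1 : ℝ → ℝ)) volume :=
    (aestronglyMeasurable_const (b := (1 : ℝ))).indicator measurableSet_Ioc
  refine (N2_moll hm hf (-δ)).trans (le_of_eq ?_)
  have e2 : ∫⁻ z, ‖(Ioc (0 : ℝ) 1).indicator (1 : ℝ → ℝ) z‖ₑ = 1 := by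
    have : ∀ z, ‖(Ioc (0 : ℝ) 1).indicator (1 : ℝ → ℝ) z‖ₑ =
        (Ioc (0 : ℝ) 1).indicator (fun _ => (1 : ℝ≥0∞)) z := by
      intro z
      by_cases hz : z ∈ Ioc (0 : ℝ) 1
      · rw [indicator_of_mem hz, indicator_of_mem hz]; simp
      · rw [indicator_of_notMem hz, indicator_of_notMem hz]; simp
    simp only [this]
    rw [lintegral_indicator measurableSet_Ioc]
    simp
  rw [e2]; ring

section

variable {f : ℝ → ℝ} (hf : ContDiff ℝ ∞ f) (hc : HasCompactSupport f)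

include hf hc

theorem integrable_mul {η : ℝ → ℝ} (hη : Integrable η) (ε x : ℝ) :
    Integrable (fun z => η z * f (x - ε * z)) := by
  obtain ⟨C, hC⟩ := hc.exists_bound_of_continuous hf.continuous
  exact hη.mul_bdd (c := C) ((hf.continuous.comp (by fun_prop)).aestronglyMeasurable)
    (Filter.Eventually.of_forall fun z => hC _)

theorem moll_diff {η : ℝ → ℝ} (hη : Integrable η) (ε x δ : ℝ) :
    moll η f ε (x + δ) - moll η f ε x = moll η (fun t => f (t + δ) - f t) ε x := by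
  rw [moll, moll, moll, ← integral_sub (integrable_mul hf hc hη ε (x + δ))
    (integrable_mul hf hc hη ε x)]
  congr 1
  funext z
  rw [show x + δ - ε * z = x - ε * z + δ by ring]
  ring

theorem T_moll_le {η : ℝ → ℝ} (hη : Integrable η) (ε δ : ℝ) :
    T (moll η f ε) δ ≤ (∫⁻ z, ‖η z‖ₑ) ^ 2 * N2 (fun t => f (t + δ) - f t) := by
  have e : (fun x => moll η f ε (x + δ) - moll η f ε x) = moll η (fun t => f (t + δ) - f t) ε :=
    funext fun x => moll_diff hf hc hη ε x δ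
  rw [T, e]
  apply N2_moll hη.aestronglyMeasurable
  exact ((hf.continuous.comp (by fun_prop)).sub hf.continuous).measurable

theorem T_one {η : ℝ → ℝ} (hη : Integrable η) (ε δ : ℝ) :
    T (moll η f ε) δ ≤ (∫⁻ z, ‖η z‖ₑ) ^ 2 * (4 * N2 f) := by
  refine (T_moll_le hf hc hη ε δ).trans ?_
  gcongr
  refine (N2_sub_le (f := fun t => f (t + δ)) (g := f)
    (hf.continuous.comp (by fun_prop)).measurable).trans ?_
  rw [N2_shift]
  apply le_of_eq; ring

theorem J_deriv (δ x : ℝ) : f (x + δ) - f x = J (deriv f) δ x := by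
  rw [J, intervalIntegral.integral_deriv_eq_sub']
  · rfl
  · intro t _
    exact hf.differentiable (by simp) t
  · exact (hf.continuous_deriv (by simp)).continuousOn

theorem T_two {η : ℝ → ℝ} (hη : Integrable η) (ε δ : ℝ) :
    T (moll η f ε) δ ≤ ENNReal.ofReal (δ ^ 2) * ((∫⁻ z, ‖η z‖ₑ) ^ 2 * N2 (deriv f)) := by
  refine (T_moll_le hf hc hη ε δ).trans ?_
  have e : (fun t => f (t + δ) - f t) = J (deriv f) δ := funext fun t => J_deriv hf hc δ t
  rw [e]
  calc (∫⁻ z, ‖η z‖ₑ) ^ 2 * N2 (J (deriv f) δ)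
      ≤ (∫⁻ z, ‖η z‖ₑ) ^ 2 * (ENNReal.ofReal (δ ^ 2) * N2 (deriv f)) := by
        gcongr
        exact N2_J (hf.continuous_deriv (by simp)).measurable δ
    _ = ENNReal.ofReal (δ ^ 2) * ((∫⁻ z, ‖η z‖ₑ) ^ 2 * N2 (deriv f)) := by ring

theorem J_hasDerivAt (δ x : ℝ) : HasDerivAt (J f δ) (f (x + δ) - f x) x := by
  have hcont := hf.continuous
  have h1 : ∀ t, HasDerivAt (fun t => ∫ s in (0 : ℝ)..t, f s) (f t) t := fun t =>
    (hcont.integral_hasStrictDerivAt 0 t).hasDerivAt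
  have h2 : HasDerivAt (fun t => (∫ s in (0 : ℝ)..(t + δ), f s) - ∫ s in (0 : ℝ)..t, f s)
      (f (x + δ) - f x) x := by
    apply HasDerivAt.sub _ (h1 x)
    exact (h1 (x + δ)).comp_add_const x δ
  have h3 : J f δ = fun t => (∫ s in (0 : ℝ)..(t + δ), f s) - ∫ s in (0 : ℝ)..t, f s := by
    funext t
    rw [J, intervalIntegral.integral_interval_sub_left (hcont.intervalIntegrable _ _)
      (hcont.intervalIntegrable _ _)]
  rw [h3]
  exact h2

theorem J_contDiff (δ : ℝ) : ContDiff ℝ ∞ (J f δ) := by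
  rw [contDiff_infty_iff_deriv]
  refine ⟨fun x => (J_hasDerivAt hf hc δ x).differentiableAt, ?_⟩
  have : deriv (J f δ) = fun x => f (x + δ) - f x := funext fun x => (J_hasDerivAt hf hc δ x).deriv
  rw [this]
  exact (hf.comp (contDiff_id.add contDiff_const)).sub hf

theorem J_zero : ∃ M : ℝ, ∀ δ x : ℝ, M + |δ| < |x| → J f δ x = 0 := by
  obtain ⟨M, hM⟩ := hc.isCompact.isBounded.subset_closedBall 0
  refine ⟨M, fun δ x hx => ?_⟩
  rw [J, intervalIntegral.integral_congr (g := fun _ => (0 : ℝ))]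
  · simp
  · intro t ht
    show f t = 0
    apply image_eq_zero_of_notMem_tsupport
    intro h
    have h1 := hM h
    rw [mem_closedBall_zero_iff, Real.norm_eq_abs] at h1
    have h2 : |x| - |δ| ≤ |t| := by
      rw [mem_uIcc] at ht
      have h3 : |x - t| ≤ |δ| := by
        rcases ht with ⟨a, b⟩ | ⟨a, b⟩
        · rw [abs_le]
          have := le_abs_self δ
          constructor <;> linarith
        · rw [abs_le]
          have := neg_abs_le δ
          constructor <;> linarith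
      have h4 : |x| ≤ |x - t| + |t| := by
        have := abs_add_le (x - t) t
        simpa using this
      linarith
    linarith

theorem moll_weak {η g : ℝ → ℝ} (hη : Integrable η) (hw : WeakDeriv η g) {ε : ℝ} (hε : ε ≠ 0)
    (x δ : ℝ) : moll η f ε (x + δ) - moll η f ε x = ε⁻¹ * moll g (J f δ) ε x := by
  set ψ : ℝ → ℝ := fun z => J f δ (x - ε * z) with hψ
  have hψs : ContDiff ℝ ∞ ψ := (J_contDiff hf hc δ).comp (by fun_prop)
  have hψc : HasCompactSupport ψ := by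
    obtain ⟨M, hM⟩ := J_zero hf hc
    apply HasCompactSupport.intro (isCompact_closedBall (0 : ℝ) ((|x| + (M + |δ|)) / |ε|))
    intro z hz
    apply hM
    rw [mem_closedBall_zero_iff, Real.norm_eq_abs, not_le, div_lt_iff₀ (abs_pos.2 hε)] at hz
    have h1 : |ε * z| ≤ |x - ε * z| + |x| := by
      have := abs_add_le (ε * z - x) x
      rw [abs_sub_comm] at this
      simpa using this
    rw [abs_mul] at h1
    linarith
  have hψd : ∀ z, deriv ψ z = -ε * (f (x - ε * z + δ) - f (x - ε * z)) := by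
    intro z
    have h1 : HasDerivAt (fun z => x - ε * z) (-ε) z := by
      have := ((hasDerivAt_id z).const_mul ε).const_sub x
      simpa using this
    have h2 := (J_hasDerivAt hf hc δ (x - ε * z)).comp z h1
    rw [show ψ = J f δ ∘ fun z => x - ε * z from rfl, h2.deriv]
    ring
  have key := hw ψ hψs hψc
  have e1 : ∫ z, η z * deriv ψ z = -ε * (moll η f ε (x + δ) - moll η f ε x) := by
    rw [moll_diff hf hc hη, moll, ← integral_const_mul]
    congr 1
    funext z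
    rw [hψd]; ring
  have e2 : ∫ z, g z * ψ z = moll g (J f δ) ε x := rfl
  rw [e1, e2] at key
  field_simp
  linarith

theorem T_three {η g : ℝ → ℝ} (hη : Integrable η) (hg : Integrable g) (hw : WeakDeriv η g) {ε : ℝ}
    (hε : ε ≠ 0) (δ : ℝ) :
    T (moll η f ε) δ ≤
      ENNReal.ofReal (δ ^ 2) * (ENNReal.ofReal ((ε⁻¹) ^ 2) * ((∫⁻ z, ‖g z‖ₑ) ^ 2 * N2 f)) := by
  have e : (fun x => moll η f ε (x + δ) - moll η f ε x) =
      fun x => ε⁻¹ * moll g (J f δ) ε x := funext fun x => moll_weak hf hc hη hw hε x δ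
  rw [T, e, N2_const_mul]
  calc ENNReal.ofReal ((ε⁻¹) ^ 2) * N2 (moll g (J f δ) ε)
      ≤ ENNReal.ofReal ((ε⁻¹) ^ 2) * ((∫⁻ z, ‖g z‖ₑ) ^ 2 * N2 (J f δ)) := by
        gcongr
        exact N2_moll hg.aestronglyMeasurable (J_contDiff hf hc δ).continuous.measurable ε
    _ ≤ ENNReal.ofReal ((ε⁻¹) ^ 2) * ((∫⁻ z, ‖g z‖ₑ) ^ 2 * (ENNReal.ofReal (δ ^ 2) * N2 f)) := by
        gcongr
        exact N2_J hf.continuous.measurable δ
    _ = _ := by ring

end

end Q8.BV
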