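import Pool.Agent.Q8.BV.Sum

set_option autoImplicit false

/-!
The profiles `w_k(x) = 2^k φ(x exp(16^k))` and the function `u = ∑ w_k`.
-/

namespace Q8.BV

open MeasureTheory Set Filter
open scoped ENNReal Topology ContDiff

/-- the bump -/
noncomputable def φ : ContDiffBump (0 : ℝ) := ⟨1 / 2, 1, by norm_num, by norm_num⟩

/-- the scale `exp(-16^k)` -/
noncomputable def sc (k : ℕ) : ℝ := Real.exp (-16 ^ k)

theorem sc_pos (k : ℕ) : 0 < sc k := Real.exp_pos _

/-- the profile -/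
noncomputable def w (k : ℕ) (x : ℝ) : ℝ := 2 ^ k * φ (x / sc k)

theorem φ_smooth : ContDiff ℝ ∞ (φ : ℝ → ℝ) := φ.contDiff

theorem φ_zero {x : ℝ} (hx : 1 ≤ |x|) : φ x = 0 := by
  apply ContDiffBump.zero_of_le_dist
  rw [dist_zero_right, Real.norm_eq_abs]
  exact hx

theorem φ_one {x : ℝ} (hx : |x| ≤ 1 / 2) : φ x = 1 := by
  apply ContDiffBump.one_of_mem_closedBall
  rw [mem_closedBall_zero_iff, Real.norm_eq_abs]
  exact hx

theorem w_smooth (k : ℕ) : ContDiff ℝ ∞ (w k) :=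
  contDiff_const.mul (φ_smooth.comp (contDiff_id.div_const _))

theorem w_zero {k : ℕ} {x : ℝ} (hx : sc k ≤ |x|) : w k x = 0 := by
  rw [w, φ_zero, mul_zero]
  rw [abs_div, abs_of_pos (sc_pos k), le_div_iff₀ (sc_pos k), one_mul]
  exact hx

theorem w_one {k : ℕ} {x : ℝ} (hx : |x| ≤ sc k / 2) : w k x = 2 ^ k := by
  rw [w, φ_one, mul_one]
  rw [abs_div, abs_of_pos (sc_pos k), div_le_iff₀ (sc_pos k)]
  linarith

theorem w_nonneg (k : ℕ) (x : ℝ) : 0 ≤ w k x := mul_nonneg (by positivity) φ.nonneg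

theorem w_compact (k : ℕ) : HasCompactSupport (w k) := by
  apply HasCompactSupport.intro (isCompact_closedBall (0 : ℝ) (sc k))
  intro x hx
  rw [mem_closedBall_zero_iff, Real.norm_eq_abs, not_le] at hx
  exact w_zero hx.le

theorem w_deriv (k : ℕ) (x : ℝ) : deriv (w k) x = 2 ^ k / sc k * deriv φ (x / sc k) := by
  have h1 : HasDerivAt (φ : ℝ → ℝ) (deriv φ (x / sc k)) (x / sc k) :=
    (φ_smooth.differentiable (by simp) _).hasDerivAt
  have h2 : HasDerivAt (fun x : ℝ => x / sc k) (1 / sc k) x := (hasDerivAt_id x).div_const _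
  have h3 := (h1.comp x h2).const_mul (2 ^ k)
  have h4 : HasDerivAt (w k) (2 ^ k * (deriv φ (x / sc k) * (1 / sc k))) x := h3
  rw [h4.deriv]; ring

theorem N2_w (k : ℕ) : N2 (w k) ≤ ENNReal.ofReal (4 ^ k * (2 * sc k)) := by
  have := N2_le_of_bound (f := w k) (C := 2 ^ k) (h := sc k) ?_ ?_ (sc_pos k).le
  · have e : ((2 : ℝ) ^ k) ^ 2 = 4 ^ k := by rw [← pow_mul, mul_comm k 2, pow_mul]; norm_num
    rwa [e] at this
  · intro x
    rw [abs_of_nonneg (w_nonneg k x), w]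
    calc (2 : ℝ) ^ k * φ (x / sc k) ≤ 2 ^ k * 1 := by
          gcongr; exact φ.le_one
      _ = 2 ^ k := mul_one _
  · intro x hx
    exact w_zero hx.le

theorem exists_M : ∃ M : ℝ, 0 ≤ M ∧ ∀ k, N2 (deriv (w k)) ≤
    ENNReal.ofReal (4 ^ k * (2 * M ^ 2) / sc k) := by
  have hcs : HasCompactSupport (φ : ℝ → ℝ) := φ.hasCompactSupport
  obtain ⟨M, hM⟩ := hcs.deriv.exists_bound_of_continuous (φ_smooth.continuous_deriv (by simp))
  refine ⟨|M|, abs_nonneg _, fun k => ?_⟩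
  have hs := sc_pos k
  have := N2_le_of_bound (f := deriv (w k)) (C := 2 ^ k / sc k * |M|) (h := sc k) ?_ ?_ hs.le
  · refine this.trans (le_of_eq ?_)
    congr 1
    have : (4 : ℝ) ^ k = (2 ^ k) ^ 2 := by rw [← pow_mul, mul_comm k 2, pow_mul]; norm_num
    rw [this]
    field_simp
  · intro x
    rw [w_deriv, abs_mul, abs_of_nonneg (show (0 : ℝ) ≤ 2 ^ k / sc k by positivity)]
    exact mul_le_mul_of_nonneg_left ((hM _).trans (le_abs_self M)) (by positivity)
  · intro x hx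
    have : w k =ᶠ[𝓝 x] fun _ => 0 := by
      have ho : IsOpen {y : ℝ | sc k < |y|} := isOpen_lt continuous_const continuous_abs
      filter_upwards [ho.mem_nhds hx] with y hy
      exact w_zero (le_of_lt hy)
    rw [this.deriv_eq]
    simp

/-- `min(1, h/ε)`-type estimate -/
theorem scale_bound (k : ℕ) {ε : ℝ} (hε : 0 < ε) (h1 : ε < 1) :
    (sc k ≤ ε → sc k / ε ≤ (1 + Real.log (1 / ε)) / 16 ^ k) ∧
    (ε ≤ sc k → 1 ≤ (1 + Real.log (1 / ε)) / 16 ^ k) := by
  set ℓ := Real.log (1 / ε) with hℓ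
  have hε' : ε = Real.exp (-ℓ) := by
    rw [hℓ, one_div, Real.log_inv, neg_neg, Real.exp_log hε]
  have hℓ0 : 0 < ℓ := by rw [hℓ]; apply Real.log_pos; rw [lt_div_iff₀ hε]; linarith
  have hL : (1 : ℝ) ≤ 16 ^ k := one_le_pow₀ (by norm_num)
  constructor
  · intro h
    have hle : ℓ ≤ 16 ^ k := by
      rw [hε', sc, Real.exp_le_exp] at h
      linarith
    have e : sc k / ε = Real.exp (-(16 ^ k - ℓ)) := by
      rw [hε', sc, ← Real.exp_sub]; congr 1; ring
    rw [e, Real.exp_neg, le_div_iff₀ (by positivity), inv_mul_le_iff₀ (Real.exp_pos _)]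
    have h2 := Real.add_one_le_exp (16 ^ k - ℓ)
    calc (16 : ℝ) ^ k ≤ (16 ^ k - ℓ + 1) * (1 + ℓ) := by nlinarith
      _ ≤ Real.exp (16 ^ k - ℓ) * (1 + ℓ) := by gcongr
  · intro h
    have hle : (16 : ℝ) ^ k ≤ ℓ := by
      rw [hε', sc, Real.exp_le_exp] at h
      linarith
    rw [le_div_iff₀ (by positivity)]
    linarith

/-- The estimate of one profile. -/
theorem gag_w {η g : ℝ → ℝ} (hη : Integrable η) (hg : Integrable g) (hw : WeakDeriv η g) :
    ∃ C : ℝ≥0∞, C ≠ ⊤ ∧ ∀ k : ℕ, ∀ ε : ℝ, 0 < ε → ε < 1 →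
      gag (moll η (w k) ε) ≤ C * ENNReal.ofReal (4 ^ k * ((1 + Real.log (1 / ε)) / 16 ^ k)) := by
  obtain ⟨M, hM0, hM⟩ := exists_M
  set P : ℝ≥0∞ := ∫⁻ z, ‖η z‖ₑ with hP
  set G : ℝ≥0∞ := ∫⁻ z, ‖g z‖ₑ with hG
  have hPt : P ≠ ⊤ := hη.2.ne
  have hGt : G ≠ ⊤ := hg.2.ne
  refine ⟨P ^ 2 * ENNReal.ofReal (4 * M ^ 2 + 16) + (4 * G ^ 2 + 16 * P ^ 2), ?_, ?_⟩
  · apply ENNReal.add_ne_top.2
    refine ⟨ENNReal.mul_ne_top (ENNReal.pow_ne_top hPt) ENNReal.ofReal_ne_top,
      ENNReal.add_ne_top.2 ⟨ENNReal.mul_ne_top (by simp) (ENNReal.pow_ne_top hGt),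
        ENNReal.mul_ne_top (by simp) (ENNReal.pow_ne_top hPt)⟩⟩
  intro k ε hε hε1
  have hs := sc_pos k
  have hm : Measurable (moll η (w k) ε) :=
    moll_measurable hη.aestronglyMeasurable (w_smooth k).continuous.measurable ε
  have hT1 := T_one (w_smooth k) (w_compact k) hη ε
  obtain ⟨hb1, hb2⟩ := scale_bound k hε hε1
  rcases le_total ε (sc k) with h | h
  · -- first estimate
    have h1 := gag_le hm hT1 (fun δ => T_two (w_smooth k) (w_compact k) hη ε δ) hs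
    refine h1.trans ?_
    calc 2 * (P ^ 2 * N2 (deriv (w k))) * ENNReal.ofReal (sc k) +
          2 * (P ^ 2 * (4 * N2 (w k))) * ENNReal.ofReal (1 / sc k)
        ≤ 2 * (P ^ 2 * ENNReal.ofReal (4 ^ k * (2 * M ^ 2) / sc k)) * ENNReal.ofReal (sc k) +
          2 * (P ^ 2 * (4 * ENNReal.ofReal (4 ^ k * (2 * sc k)))) * ENNReal.ofReal (1 / sc k) := by
          gcongr
          · exact hM k
          · exact N2_w k
      _ = P ^ 2 * (ENNReal.ofReal (2 * (4 ^ k * (2 * M ^ 2) / sc k) * sc k) +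
            ENNReal.ofReal (2 * (4 * (4 ^ k * (2 * sc k))) * (1 / sc k))) := by
          rw [ENNReal.ofReal_mul (p := 2 * (4 ^ k * (2 * M ^ 2) / sc k)) (by positivity),
            ENNReal.ofReal_mul (p := 2) (by norm_num),
            ENNReal.ofReal_mul (p := 2 * (4 * (4 ^ k * (2 * sc k)))) (by positivity),
            ENNReal.ofReal_mul (p := 2) (by norm_num), ENNReal.ofReal_mul (p := 4) (by norm_num)]
          simp only [ENNReal.ofReal_ofNat]
          ring
      _ = P ^ 2 * ENNReal.ofReal (4 * M ^ 2 + 16) * ENNReal.ofReal (4 ^ k * 1) := by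
          rw [mul_assoc (P ^ 2), ← ENNReal.ofReal_mul (p := 4 * M ^ 2 + 16) (by positivity),
            ← ENNReal.ofReal_add (by positivity) (by positivity)]
          congr 2
          field_simp
          ring
      _ ≤ P ^ 2 * ENNReal.ofReal (4 * M ^ 2 + 16) *
            ENNReal.ofReal (4 ^ k * ((1 + Real.log (1 / ε)) / 16 ^ k)) := by
          gcongr P ^ 2 * ENNReal.ofReal (4 * M ^ 2 + 16) * ENNReal.ofReal (4 ^ k * ?_)
          exact hb2 h
      _ ≤ _ := by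
          gcongr ?_ * _
          exact le_self_add
  · have h1 := gag_le hm hT1 (fun δ => T_three (w_smooth k) (w_compact k) hη hg hw hε.ne' δ) hε
    refine h1.trans ?_
    calc 2 * (ENNReal.ofReal ((ε⁻¹) ^ 2) * (G ^ 2 * N2 (w k))) * ENNReal.ofReal ε +
          2 * (P ^ 2 * (4 * N2 (w k))) * ENNReal.ofReal (1 / ε)
        ≤ 2 * (ENNReal.ofReal ((ε⁻¹) ^ 2) * (G ^ 2 * ENNReal.ofReal (4 ^ k * (2 * sc k)))) *
            ENNReal.ofReal ε +
          2 * (P ^ 2 * (4 * ENNReal.ofReal (4 ^ k * (2 * sc k)))) * ENNReal.ofReal (1 / ε) := by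
          gcongr
          · exact N2_w k
          · exact N2_w k
      _ = G ^ 2 * ENNReal.ofReal (2 * ((ε⁻¹) ^ 2 * (4 ^ k * (2 * sc k))) * ε) +
            P ^ 2 * ENNReal.ofReal (2 * (4 * (4 ^ k * (2 * sc k))) * (1 / ε)) := by
          rw [ENNReal.ofReal_mul (p := 2 * ((ε⁻¹) ^ 2 * (4 ^ k * (2 * sc k)))) (by positivity),
            ENNReal.ofReal_mul (p := 2) (by norm_num),
            ENNReal.ofReal_mul (p := (ε⁻¹) ^ 2) (by positivity),
            ENNReal.ofReal_mul (p := 2 * (4 * (4 ^ k * (2 * sc k)))) (by positivity),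
            ENNReal.ofReal_mul (p := 2) (by norm_num), ENNReal.ofReal_mul (p := 4) (by norm_num)]
          simp only [ENNReal.ofReal_ofNat]
          ring
      _ = (4 * G ^ 2 + 16 * P ^ 2) * ENNReal.ofReal (4 ^ k * (sc k / ε)) := by
          have e1 : 2 * ((ε⁻¹) ^ 2 * (4 ^ k * (2 * sc k))) * ε = 4 * (4 ^ k * (sc k / ε)) := by
            field_simp; ring
          have e2 : 2 * (4 * (4 ^ k * (2 * sc k))) * (1 / ε) = 16 * (4 ^ k * (sc k / ε)) := by
            field_simp; ring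
          rw [e1, e2, ENNReal.ofReal_mul (p := 4) (by norm_num),
            ENNReal.ofReal_mul (p := 16) (by norm_num)]
          simp only [ENNReal.ofReal_ofNat]
          ring
      _ ≤ (4 * G ^ 2 + 16 * P ^ 2) *
            ENNReal.ofReal (4 ^ k * ((1 + Real.log (1 / ε)) / 16 ^ k)) := by
          gcongr (4 * G ^ 2 + 16 * P ^ 2) * ENNReal.ofReal (4 ^ k * ?_)
          exact hb1 h
      _ ≤ _ := by
          gcongr ?_ * _
          exact le_add_self

end Q8.BV
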