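import Pool.Agent.Q8.BV.Mod

set_option autoImplicit false

/-!
Sums, limits and the estimate of one profile.
-/

namespace Q8.BV

open MeasureTheory Set Filter
open scoped ENNReal Topology ContDiff

theorem weights (n : ℕ) : ∑ k ∈ Finset.range n, (1 / 2 : ℝ) ^ (k + 1) ≤ 1 := by
  have h : ∀ n : ℕ, ∑ k ∈ Finset.range n, (1 / 2 : ℝ) ^ (k + 1) = 1 - (1 / 2) ^ n := by
    intro n
    induction n with
    | zero => simp
    | succ n ih => rw [Finset.sum_range_succ, ih]; ring
  rw [h]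
  have : (0 : ℝ) ≤ (1 / 2) ^ n := by positivity
  linarith

theorem sq_sum_le (n : ℕ) (d : ℕ → ℝ) :
    (∑ k ∈ Finset.range n, d k) ^ 2 ≤ ∑ k ∈ Finset.range n, 2 ^ (k + 1) * d k ^ 2 := by
  have h := Finset.sum_sq_le_sum_mul_sum_of_sq_eq_mul (Finset.range n)
    (f := fun k => (1 / 2 : ℝ) ^ (k + 1)) (g := fun k => 2 ^ (k + 1) * d k ^ 2) (r := d)
    (fun k _ => by positivity) (fun k _ => by positivity) (fun k _ => by
      rw [← mul_assoc, ← mul_pow]; norm_num)
  refine h.trans ?_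
  have h2 : 0 ≤ ∑ k ∈ Finset.range n, 2 ^ (k + 1) * d k ^ 2 :=
    Finset.sum_nonneg fun k _ => by positivity
  calc _ ≤ 1 * ∑ k ∈ Finset.range n, 2 ^ (k + 1) * d k ^ 2 := by
        gcongr; exact weights n
    _ = _ := one_mul _

theorem enorm_sq_eq (c : ℝ) : ‖c‖ₑ ^ 2 = ENNReal.ofReal (c ^ 2) := by
  rw [Real.enorm_eq_ofReal_abs, ← ENNReal.ofReal_pow (abs_nonneg _), sq_abs]

theorem enorm_sum_le (n : ℕ) (d : ℕ → ℝ) :
    ‖∑ k ∈ Finset.range n, d k‖ₑ ^ 2 ≤ ∑ k ∈ Finset.range n, 2 ^ (k + 1) * ‖d k‖ₑ ^ 2 := by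
  rw [enorm_sq_eq]
  refine (ENNReal.ofReal_le_ofReal (sq_sum_le n d)).trans (le_of_eq ?_)
  rw [ENNReal.ofReal_sum_of_nonneg (fun k _ => by positivity)]
  refine Finset.sum_congr rfl fun k _ => ?_
  rw [ENNReal.ofReal_mul (by positivity), enorm_sq_eq, ENNReal.ofReal_pow (by norm_num)]
  simp

theorem N2_sum_le (n : ℕ) {v : ℕ → ℝ → ℝ} (hv : ∀ k, Measurable (v k)) :
    N2 (fun x => ∑ k ∈ Finset.range n, v k x) ≤ ∑ k ∈ Finset.range n, 2 ^ (k + 1) * N2 (v k) := by
  rw [N2]
  refine (lintegral_mono fun x => enorm_sum_le n fun k => v k x).trans (le_of_eq ?_)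
  rw [lintegral_finset_sum]
  · refine Finset.sum_congr rfl fun k _ => ?_
    rw [lintegral_const_mul' _ _ (by simp), N2]
  · intro k _
    exact ((hv k).enorm.pow_const 2).const_mul _

theorem gag_sum_le (n : ℕ) {v : ℕ → ℝ → ℝ} (hv : ∀ k, Measurable (v k)) :
    gag (fun x => ∑ k ∈ Finset.range n, v k x) ≤
      ∑ k ∈ Finset.range n, 2 ^ (k + 1) * gag (v k) := by
  have hm : ∀ k, Measurable fun p : ℝ × ℝ =>
      ENNReal.ofReal (|v k p.1 - v k p.2| ^ 2 / |p.1 - p.2| ^ 2) := by
    intro k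
    apply ENNReal.measurable_ofReal.comp
    apply Measurable.div
    · exact (_root_.continuous_abs.measurable.comp
        (((hv k).comp measurable_fst).sub ((hv k).comp measurable_snd))).pow_const 2
    · fun_prop
  have h1 : ∀ x y, ENNReal.ofReal (|(∑ k ∈ Finset.range n, v k x) -
      ∑ k ∈ Finset.range n, v k y| ^ 2 / |x - y| ^ 2) ≤
      ∑ k ∈ Finset.range n, 2 ^ (k + 1) *
        ENNReal.ofReal (|v k x - v k y| ^ 2 / |x - y| ^ 2) := by
    intro x y
    simp only [ofReal_quot, ← Finset.sum_sub_distrib]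
    calc _ ≤ (∑ k ∈ Finset.range n, 2 ^ (k + 1) * ‖v k x - v k y‖ₑ ^ 2) *
          ENNReal.ofReal (1 / (x - y) ^ 2) := by
          gcongr
          exact enorm_sum_le n fun k => v k x - v k y
      _ = _ := by
          rw [Finset.sum_mul]
          simp only [mul_assoc]
  rw [gag]
  refine (lintegral_mono fun x => lintegral_mono fun y => h1 x y).trans (le_of_eq ?_)
  have h2 : ∀ x, ∫⁻ y, ∑ k ∈ Finset.range n, 2 ^ (k + 1) *
        ENNReal.ofReal (|v k x - v k y| ^ 2 / |x - y| ^ 2) =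
      ∑ k ∈ Finset.range n, 2 ^ (k + 1) *
        ∫⁻ y, ENNReal.ofReal (|v k x - v k y| ^ 2 / |x - y| ^ 2) := by
    intro x
    rw [lintegral_finset_sum]
    · refine Finset.sum_congr rfl fun k _ => ?_
      rw [lintegral_const_mul' _ _ (by simp)]
    · intro k _
      exact ((hm k).comp (measurable_const.prodMk measurable_id)).const_mul _
  simp only [h2]
  rw [lintegral_finset_sum]
  · refine Finset.sum_congr rfl fun k _ => ?_
    rw [lintegral_const_mul' _ _ (by simp), gag]
  · intro k _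
    exact ((hm k).lintegral_prod_right').const_mul _

theorem N2_le_of_tendsto {v : ℝ → ℝ} {vn : ℕ → ℝ → ℝ} (hm : ∀ n, Measurable (vn n))
    (h : ∀ᵐ x, Tendsto (fun n => vn n x) atTop (𝓝 (v x))) {B : ℝ≥0∞} (hB : ∀ n, N2 (vn n) ≤ B) :
    N2 v ≤ B := by
  have h1 : N2 v ≤ ∫⁻ x, liminf (fun n => ‖vn n x‖ₑ ^ 2) atTop := by
    rw [N2]
    apply lintegral_mono_ae
    filter_upwards [h] with x hx
    have : Tendsto (fun n => ‖vn n x‖ₑ ^ 2) atTop (𝓝 (‖v x‖ₑ ^ 2)) := by
      simp only [enorm_sq_eq]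
      exact (ENNReal.continuous_ofReal.tendsto _).comp (hx.pow 2)
    rw [this.liminf_eq]
  refine h1.trans ((lintegral_liminf_le fun n => (hm n).enorm.pow_const 2).trans ?_)
  exact liminf_le_of_frequently_le' (Frequently.of_forall hB)

theorem gag_le_of_tendsto {v : ℝ → ℝ} {vn : ℕ → ℝ → ℝ} (hv : ∀ n, Measurable (vn n))
    (h : ∀ᵐ x, Tendsto (fun n => vn n x) atTop (𝓝 (v x))) {B : ℝ≥0∞} (hB : ∀ n, gag (vn n) ≤ B) :
    gag v ≤ B := by
  have hm : ∀ n, Measurable fun p : ℝ × ℝ =>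
      ENNReal.ofReal (|vn n p.1 - vn n p.2| ^ 2 / |p.1 - p.2| ^ 2) := by
    intro k
    apply ENNReal.measurable_ofReal.comp
    apply Measurable.div
    · exact (_root_.continuous_abs.measurable.comp
        (((hv k).comp measurable_fst).sub ((hv k).comp measurable_snd))).pow_const 2
    · fun_prop
  have h1 : gag v ≤ ∫⁻ x, liminf (fun n => ∫⁻ y,
      ENNReal.ofReal (|vn n x - vn n y| ^ 2 / |x - y| ^ 2)) atTop := by
    rw [gag]
    apply lintegral_mono_ae
    filter_upwards [h] with x hx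
    have h2 : ∫⁻ y, ENNReal.ofReal (|v x - v y| ^ 2 / |x - y| ^ 2) ≤
        ∫⁻ y, liminf (fun n => ENNReal.ofReal (|vn n x - vn n y| ^ 2 / |x - y| ^ 2)) atTop := by
      apply lintegral_mono_ae
      filter_upwards [h] with y hy
      have : Tendsto (fun n => ENNReal.ofReal (|vn n x - vn n y| ^ 2 / |x - y| ^ 2)) atTop
          (𝓝 (ENNReal.ofReal (|v x - v y| ^ 2 / |x - y| ^ 2))) := by
        refine (ENNReal.continuous_ofReal.tendsto _).comp ?_
        exact ((hx.sub hy).abs.pow 2).div_const _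
      rw [this.liminf_eq]
    refine h2.trans (lintegral_liminf_le fun n => ?_)
    exact (hm n).comp (measurable_const.prodMk measurable_id)
  refine h1.trans ((lintegral_liminf_le fun n => ?_).trans ?_)
  · exact (hm n).lintegral_prod_right'
  · exact liminf_le_of_frequently_le' (Frequently.of_forall hB)

theorem moll_measurable {η f : ℝ → ℝ} (hη : AEStronglyMeasurable η volume) (hf : Measurable f)
    (ε : ℝ) : Measurable (moll η f ε) := by
  have e : moll η f ε = fun x => ∫ z, hη.mk η z * f (x - ε * z) := by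
    funext x
    rw [moll]
    apply integral_congr_ae
    filter_upwards [hη.ae_eq_mk] with z hz
    rw [← hz]
  rw [e]
  apply StronglyMeasurable.measurable
  apply StronglyMeasurable.integral_prod_right (f := fun x z => hη.mk η z * f (x - ε * z))
  apply Measurable.stronglyMeasurable
  exact (hη.stronglyMeasurable_mk.measurable.comp measurable_snd).mul (hf.comp (by fun_prop))

/-- A bounded function which vanishes outside `[-h, h]`. -/
theorem N2_le_of_bound {f : ℝ → ℝ} {C h : ℝ} (hC : ∀ x, |f x| ≤ C)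
    (h0 : ∀ x, h < |x| → f x = 0) (hh : 0 ≤ h) : N2 f ≤ ENNReal.ofReal (C ^ 2 * (2 * h)) := by
  have hC0 : 0 ≤ C := (abs_nonneg _).trans (hC 0)
  calc N2 f ≤ ∫⁻ x, (Icc (-h) h).indicator (fun _ => ENNReal.ofReal (C ^ 2)) x := by
        apply lintegral_mono
        intro x
        show ‖f x‖ₑ ^ 2 ≤ _
        by_cases hx : x ∈ Icc (-h) h
        · rw [indicator_of_mem hx, enorm_sq_eq]
          apply ENNReal.ofReal_le_ofReal
          rw [← sq_abs]
          exact pow_le_pow_left₀ (abs_nonneg _) (hC x) 2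
        · rw [indicator_of_notMem hx, h0 x]
          · simp
          · rw [mem_Icc, ← abs_le, not_le] at hx
            exact hx
    _ = ENNReal.ofReal (C ^ 2 * (2 * h)) := by
        rw [lintegral_indicator measurableSet_Icc, setLIntegral_const, Real.volume_Icc,
          ← ENNReal.ofReal_mul (sq_nonneg _)]
        congr 2; ring

end Q8.BV
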