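import Mathlib

set_option autoImplicit false

/-!
Young's inequality for `∫ η(z) f(x - ε z) dz` in `L²`.
-/

namespace Q8.BV

open MeasureTheory Set
open scoped ENNReal

/-- `∫ |f|²` -/
noncomputable def N2 (f : ℝ → ℝ) : ℝ≥0∞ := ∫⁻ x, ‖f x‖ₑ ^ 2

/-- `(f * η_ε)(x) = ∫ η(z) f(x - ε z) dz` -/
noncomputable def moll (η f : ℝ → ℝ) (ε x : ℝ) : ℝ := ∫ z, η z * f (x - ε * z)

theorem cs_lintegral {α : Type*} [MeasurableSpace α] (μ : Measure α) {F : α → ℝ≥0∞}
    (hF : AEMeasurable F μ) : (∫⁻ x, F x ∂μ) ^ 2 ≤ μ univ * ∫⁻ x, F x ^ 2 ∂μ := by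
  have h := ENNReal.lintegral_mul_le_Lp_mul_Lq μ Real.HolderConjugate.two_two
    (f := fun _ => 1) (g := F) aemeasurable_const hF
  simp only [Pi.mul_apply, one_mul, ENNReal.one_rpow, lintegral_one] at h
  have h2 := pow_le_pow_left₀ (zero_le (a := ∫⁻ x, F x ∂μ)) h 2
  refine h2.trans (le_of_eq ?_)
  rw [mul_pow, ← ENNReal.rpow_natCast, ← ENNReal.rpow_mul, ← ENNReal.rpow_natCast,
    ← ENNReal.rpow_mul]
  norm_num

theorem young {a F : ℝ → ℝ≥0∞} (ha : AEMeasurable a) (hF : Measurable F) (ε : ℝ) :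
    ∫⁻ x, (∫⁻ z, a z * F (x - ε * z)) ^ 2 ≤ (∫⁻ z, a z) ^ 2 * ∫⁻ x, F x ^ 2 := by
  have h1 : ∀ x, (∫⁻ z, a z * F (x - ε * z)) ^ 2 ≤
      (∫⁻ z, a z) * ∫⁻ z, a z * F (x - ε * z) ^ 2 := by
    intro x
    have hm : Measurable fun z => F (x - ε * z) := hF.comp (by fun_prop)
    have e1 : ∫⁻ z, a z * F (x - ε * z) = ∫⁻ z, F (x - ε * z) ∂(volume.withDensity a) := by
      rw [lintegral_withDensity_eq_lintegral_mul₀ ha hm.aemeasurable]
      rfl
    have e2 : ∫⁻ z, a z * F (x - ε * z) ^ 2 = ∫⁻ z, F (x - ε * z) ^ 2 ∂(volume.withDensity a) := by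
      rw [lintegral_withDensity_eq_lintegral_mul₀ ha (hm.pow_const 2).aemeasurable]
      rfl
    rw [e1, e2]
    refine (cs_lintegral _ hm.aemeasurable).trans (le_of_eq ?_)
    rw [withDensity_apply _ MeasurableSet.univ, Measure.restrict_univ]
  calc ∫⁻ x, (∫⁻ z, a z * F (x - ε * z)) ^ 2
      ≤ ∫⁻ x, (∫⁻ z, a z) * ∫⁻ z, a z * F (x - ε * z) ^ 2 := lintegral_mono h1
    _ ≤ (∫⁻ z, a z) * ∫⁻ x, ∫⁻ z, a z * F (x - ε * z) ^ 2 := by
        rw [lintegral_const_mul'']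
        have hm : AEMeasurable (fun p : ℝ × ℝ => a p.2 * F (p.1 - ε * p.2) ^ 2)
            (volume.prod volume) := by
          apply AEMeasurable.mul
          · exact ha.comp_quasiMeasurePreserving Measure.quasiMeasurePreserving_snd
          · exact ((hF.comp (by fun_prop)).pow_const 2).aemeasurable
        exact hm.lintegral_prod_right'
    _ = (∫⁻ z, a z) * ∫⁻ z, ∫⁻ x, a z * F (x - ε * z) ^ 2 := by
        rw [lintegral_lintegral_swap]
        apply AEMeasurable.mul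
        · exact ha.comp_quasiMeasurePreserving Measure.quasiMeasurePreserving_snd
        · exact ((hF.comp (by fun_prop)).pow_const 2).aemeasurable
    _ = (∫⁻ z, a z) * ∫⁻ z, a z * ∫⁻ x, F x ^ 2 := by
        congr 1
        apply lintegral_congr
        intro z
        rw [lintegral_const_mul]
        · rw [lintegral_sub_right_eq_self (fun x => F x ^ 2)]
        · exact (hF.comp (by fun_prop)).pow_const 2
    _ = (∫⁻ z, a z) ^ 2 * ∫⁻ x, F x ^ 2 := by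
        rw [lintegral_mul_const'' _ ha, sq, mul_assoc]

theorem enorm_moll_le (η f : ℝ → ℝ) (ε x : ℝ) :
    ‖moll η f ε x‖ₑ ≤ ∫⁻ z, ‖η z‖ₑ * ‖f (x - ε * z)‖ₑ := by
  rw [moll]
  refine (enorm_integral_le_lintegral_enorm _).trans (le_of_eq ?_)
  simp only [enorm_mul]

theorem N2_moll {η f : ℝ → ℝ} (hη : AEStronglyMeasurable η volume) (hf : Measurable f) (ε : ℝ) :
    N2 (moll η f ε) ≤ (∫⁻ z, ‖η z‖ₑ) ^ 2 * N2 f := by
  rw [N2, N2]
  refine (lintegral_mono fun x => ?_).trans (young hη.enorm hf.enorm ε)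
  exact pow_le_pow_left₀ zero_le (enorm_moll_le η f ε x) 2

end Q8.BV
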